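import Pool.Agent.Y377.IL.StmA

/-!
# Formal fundamental matrices
-/

set_option autoImplicit false

namespace Pool.Agent.Y954.IL

open Pool.Agent.Y377.IL

section

variable {n : ℕ} (A : Fin n → Fin n → PowerSeries ℂ)

/-- the coefficients of the solution -/
noncomputable def u (c : Fin n → ℂ) : ℕ → Fin n → ℂ
  | 0 => c
  | m + 1 => fun i => (∑ k, ∑ q : Fin (m + 1),
      PowerSeries.coeff (m - q.1) (A i k) * u c q.1 k) / ((m : ℂ) + 1)
termination_by m => m
decreasing_by exact q.2

/-- the solution -/
noncomputable def sol (c : Fin n → ℂ) (i : Fin n) : PowerSeries ℂ :=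
  PowerSeries.mk fun m => u A c m i

lemma sol_zero (c : Fin n → ℂ) (i : Fin n) : PowerSeries.constantCoeff (sol A c i) = c i := by
  rw [← PowerSeries.coeff_zero_eq_constantCoeff_apply]
  unfold sol
  rw [PowerSeries.coeff_mk, u]

lemma coeff_prod (f g : PowerSeries ℂ) (m : ℕ) : PowerSeries.coeff m (f * g) =
    ∑ q : Fin (m + 1), PowerSeries.coeff (m - q.1) f * PowerSeries.coeff q.1 g := by
  rw [PowerSeries.coeff_mul, ← Finset.Nat.sum_antidiagonal_swap,
    Finset.Nat.sum_antidiagonal_eq_sum_range_succ_mk, Finset.sum_range]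
  rfl

lemma sol_eq (c : Fin n → ℂ) (i : Fin n) : PowerSeries.derivative ℂ (sol A c i) =
    ∑ k, A i k * sol A c k := by
  ext m
  have h1 : PowerSeries.coeff m (PowerSeries.derivative ℂ (sol A c i)) =
      PowerSeries.coeff (m + 1) (sol A c i) * (m + 1) := PowerSeries.coeff_derivative _ _
  have h2 : PowerSeries.coeff m (∑ k, A i k * sol A c k) = ∑ k, ∑ q : Fin (m + 1),
      PowerSeries.coeff (m - q.1) (A i k) * u A c q.1 k := by
    rw [map_sum]
    refine Finset.sum_congr rfl fun k _ => ?_
    rw [coeff_prod]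
    refine Finset.sum_congr rfl fun q _ => ?_
    unfold sol
    rw [PowerSeries.coeff_mk]
  have hm : (m : ℂ) + 1 ≠ 0 := by exact_mod_cast Nat.succ_ne_zero m
  have h3 : PowerSeries.coeff (m + 1) (sol A c i) = (∑ k, ∑ q : Fin (m + 1),
      PowerSeries.coeff (m - q.1) (A i k) * u A c q.1 k) / ((m : ℂ) + 1) := by
    unfold sol
    rw [PowerSeries.coeff_mk, u]
  rw [h1, h2, h3, div_mul_cancel₀ _ hm]

lemma uniq {z : Fin n → PowerSeries ℂ}
    (h : ∀ i, PowerSeries.derivative ℂ (z i) = ∑ k, A i k * z k)
    (h0 : ∀ i, PowerSeries.constantCoeff (z i) = 0) (i : Fin n) : z i = 0 := by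
  have key : ∀ m i, PowerSeries.coeff m (z i) = 0 := by
    intro m
    induction m using Nat.strong_induction_on with
    | _ m ih =>
      intro i
      rcases m with _ | m
      · rw [PowerSeries.coeff_zero_eq_constantCoeff_apply]
        exact h0 i
      · have h1 : PowerSeries.coeff m (PowerSeries.derivative ℂ (z i)) =
          PowerSeries.coeff (m + 1) (z i) * (m + 1) := PowerSeries.coeff_derivative _ _
        have h2 : PowerSeries.coeff m (∑ k, A i k * z k) = 0 := by
          rw [map_sum]
          refine Finset.sum_eq_zero fun k _ => ?_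
          rw [coeff_prod]
          refine Finset.sum_eq_zero fun q _ => ?_
          rw [ih q.1 q.2, mul_zero]
        rw [h i, h2] at h1
        have hm : (m : ℂ) + 1 ≠ 0 := by exact_mod_cast Nat.succ_ne_zero m
        exact (mul_eq_zero.1 h1.symm).resolve_right hm
  ext m
  rw [key, map_zero]

end

/-- **IL-FML** -/
theorem t_FML : Pool.Agent.Y377.IL.S_FML := by
  intro n A
  let X : Matrix (Fin n) (Fin n) (PowerSeries ℂ) := fun i j => sol A (Pi.single j 1) i
  have hX0 : ∀ i j, PowerSeries.constantCoeff (X i j) = if i = j then 1 else 0 := by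
    intro i j
    rw [show X i j = sol A (Pi.single j 1) i from rfl, sol_zero, Pi.single_apply]
  have hX1 : ∀ i j, PowerSeries.derivative ℂ (X i j) = ∑ k, A i k * X k j :=
    fun i j => sol_eq A _ i
  have hdet : IsUnit X.det := by
    rw [PowerSeries.isUnit_iff_constantCoeff, RingHom.map_det]
    have h1 : (PowerSeries.constantCoeff (R := ℂ)).mapMatrix X = 1 := by
      ext i j
      rw [RingHom.mapMatrix_apply, Matrix.map_apply, hX0, Matrix.one_apply]
    rw [h1, Matrix.det_one]
    exact isUnit_one
  refine ⟨X, X⁻¹, Matrix.mul_nonsing_inv X hdet, hX1, fun y hy => ?_⟩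
  refine ⟨fun k => PowerSeries.constantCoeff (y k), fun i => ?_⟩
  have hz := uniq A (z := fun i => y i - ∑ k, X i k *
    algebraMap ℂ (PowerSeries ℂ) (PowerSeries.constantCoeff (y k))) ?_ ?_ i
  · exact sub_eq_zero.1 hz
  · intro i
    have h1 : ∀ k, PowerSeries.derivative ℂ (X i k *
        algebraMap ℂ (PowerSeries ℂ) (PowerSeries.constantCoeff (y k))) =
        (∑ l, A i l * X l k) * algebraMap ℂ (PowerSeries ℂ) (PowerSeries.constantCoeff (y k)) := by
      intro k
      rw [Derivation.leibniz, Derivation.map_algebraMap, smul_zero, zero_add, hX1, smul_eq_mul,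
        mul_comm]
    rw [map_sub, map_sum, hy, Finset.sum_congr rfl fun k _ => h1 k]
    simp only [mul_sub, Finset.mul_sum, Finset.sum_mul]
    rw [Finset.sum_sub_distrib]
    congr 1
    rw [Finset.sum_comm]
    refine Finset.sum_congr rfl fun l _ => Finset.sum_congr rfl fun k _ => ?_
    ring
  · intro i
    rw [map_sub, map_sum]
    have h1 : ∀ k, PowerSeries.constantCoeff (X i k *
        algebraMap ℂ (PowerSeries ℂ) (PowerSeries.constantCoeff (y k))) =
        if i = k then PowerSeries.constantCoeff (y k) else 0 := by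
      intro k
      have h2 : PowerSeries.constantCoeff (algebraMap ℂ (PowerSeries ℂ)
          (PowerSeries.constantCoeff (y k))) = PowerSeries.constantCoeff (y k) :=
        PowerSeries.constantCoeff_C _
      rw [map_mul, hX0, h2]
      split_ifs <;> simp
    rw [Finset.sum_congr rfl fun k _ => h1 k, Finset.sum_ite_eq]
    simp

end Pool.Agent.Y954.IL
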